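import Mathlib
import Pool.Agent.Helper77.K3.Defs

/-!
# Strong irreducibility and general position
-/

set_option autoImplicit false

open Set Filter Topology

namespace Pool.Agent.Helper74.K3.gen

open Pool.Agent.Helper77.K3

section cover

variable {G : Type} [Group G] {X : Type} [AddCommGroup X] [Module ℝ X] [FiniteDimensional ℝ X]

theorem rho_inv_apply (ρ : G →* (X →ₗ[ℝ] X)) (g : G) (x : X) : ρ g⁻¹ (ρ g x) = x := by
  rw [← Module.End.mul_apply, ← map_mul, inv_mul_cancel, map_one, Module.End.one_apply]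

theorem rho_apply_inv (ρ : G →* (X →ₗ[ℝ] X)) (g : G) (x : X) : ρ g (ρ g⁻¹ x) = x := by
  rw [← Module.End.mul_apply, ← map_mul, mul_inv_cancel, map_one, Module.End.one_apply]

theorem rho_inj (ρ : G →* (X →ₗ[ℝ] X)) (g : G) : Function.Injective (ρ g) := by
  intro a b h
  rw [← rho_inv_apply ρ g a, h, rho_inv_apply]

/-- The action of `G` on subspaces. -/
@[reducible] def act (ρ : G →* (X →ₗ[ℝ] X)) : MulAction G (Submodule ℝ X) where
  smul g U := U.map (ρ g)
  one_smul U := by
    change U.map (ρ 1) = U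
    rw [map_one, Module.End.one_eq_id, Submodule.map_id]
  mul_smul g h U := by
    change U.map (ρ (g * h)) = (U.map (ρ h)).map (ρ g)
    rw [map_mul, Module.End.mul_eq_comp, Submodule.map_comp]

theorem finrank_map_rho (ρ : G →* (X →ₗ[ℝ] X)) (g : G) (U : Submodule ℝ X) :
    Module.finrank ℝ (U.map (ρ g)) = Module.finrank ℝ U :=
  (Submodule.equivMapOfInjective (ρ g) (rho_inj ρ g) U).finrank_eq.symm

/-- If finitely many subspaces of dimension less than `n` cover an orbit, then there is a subspace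
of dimension less than `n`, with a stabiliser of finite index, which meets the orbit. -/
theorem star (ρ : G →* (X →ₗ[ℝ] X)) (x : X) (n : ℕ) (S : Finset (Submodule ℝ X))
    (hS : ∀ U ∈ S, Module.finrank ℝ U < n) (hcov : ∀ f : G, ∃ U ∈ S, ρ f x ∈ U) :
    ∃ U : Submodule ℝ X, Module.finrank ℝ U < n ∧ (∃ h : G, ρ h x ∈ U) ∧
      ∃ G' : Subgroup G, G'.FiniteIndex ∧ ∀ f ∈ G', U.map (ρ f) = U := by
  classical
  let P : ℕ → Prop := fun d => ∃ S : Finset (Submodule ℝ X), (∀ U ∈ S, Module.finrank ℝ U ≤ d) ∧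
    ∀ f : G, ∃ U ∈ S, ρ f x ∈ U
  have hn : 0 < n := by
    obtain ⟨U, hU, -⟩ := hcov 1
    have := hS U hU
    omega
  have hP : ∃ d, P d := ⟨n - 1, S, fun U hU => by have := hS U hU; omega, hcov⟩
  set d := Nat.find hP with hd
  have hdn : d ≤ n - 1 := Nat.find_min' hP ⟨S, fun U hU => by have := hS U hU; omega, hcov⟩
  let Q : ℕ → Prop := fun c => ∃ S : Finset (Submodule ℝ X), (∀ U ∈ S, Module.finrank ℝ U ≤ d) ∧
    (∀ f : G, ∃ U ∈ S, ρ f x ∈ U) ∧ (S.filter fun U : Submodule ℝ X => Module.finrank ℝ U = d).card = c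
  have hQ : ∃ c, Q c := by
    obtain ⟨S, h1, h2⟩ := Nat.find_spec hP
    exact ⟨_, S, h1, h2, rfl⟩
  set c := Nat.find hQ with hc
  obtain ⟨T, hT1, hT2, hT3⟩ := Nat.find_spec hQ
  rw [← hc] at hT3
  have hmin : ∀ S : Finset (Submodule ℝ X), (∀ U ∈ S, Module.finrank ℝ U ≤ d) →
      (∀ f : G, ∃ U ∈ S, ρ f x ∈ U) → c ≤ (S.filter fun U : Submodule ℝ X => Module.finrank ℝ U = d).card :=
    fun S h1 h2 => Nat.find_min' hQ ⟨S, h1, h2, rfl⟩
  set Td := T.filter fun U : Submodule ℝ X => Module.finrank ℝ U = d with hTd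
  -- the group permutes the members of maximal dimension
  have hperm : ∀ (h : G), ∀ U ∈ Td, U.map (ρ h) ∈ Td := by
    intro h
    let V : Finset (Submodule ℝ X) := (T ×ˢ T).image fun q => q.1 ⊓ q.2.map (ρ h)
    have hV1 : ∀ U ∈ V, Module.finrank ℝ U ≤ d := by
      intro U hU
      obtain ⟨q, hq, rfl⟩ := Finset.mem_image.mp hU
      exact (Submodule.finrank_mono inf_le_left).trans (hT1 _ (Finset.mem_product.mp hq).1)
    have hV2 : ∀ f : G, ∃ U ∈ V, ρ f x ∈ U := by
      intro f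
      obtain ⟨U, hU, hU'⟩ := hT2 f
      obtain ⟨W, hW, hW'⟩ := hT2 (h⁻¹ * f)
      refine ⟨U ⊓ W.map (ρ h), Finset.mem_image.mpr ⟨(U, W), Finset.mem_product.mpr ⟨hU, hW⟩, rfl⟩,
        hU', ?_⟩
      refine ⟨_, hW', ?_⟩
      rw [map_mul, Module.End.mul_apply, rho_apply_inv]
    have hV3 : (V.filter fun U : Submodule ℝ X => Module.finrank ℝ U = d) ⊆ Td ∩ Td.image fun U : Submodule ℝ X => U.map (ρ h) := by
      intro U hU
      obtain ⟨hU1, hU2⟩ := Finset.mem_filter.mp hU
      obtain ⟨q, hq, rfl⟩ := Finset.mem_image.mp hU1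
      obtain ⟨hq1, hq2⟩ := Finset.mem_product.mp hq
      have e1 : q.1 ⊓ q.2.map (ρ h) = q.1 := by
        apply Submodule.eq_of_le_of_finrank_le inf_le_left
        rw [hU2]; exact hT1 _ hq1
      have e2 : q.1 ⊓ q.2.map (ρ h) = q.2.map (ρ h) := by
        apply Submodule.eq_of_le_of_finrank_le inf_le_right
        rw [hU2, finrank_map_rho]; exact hT1 _ hq2
      rw [Finset.mem_inter]
      constructor
      · rw [e1] at hU2 ⊢
        exact Finset.mem_filter.mpr ⟨hq1, hU2⟩
      · rw [e2] at hU2 ⊢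
        rw [finrank_map_rho] at hU2
        exact Finset.mem_image.mpr ⟨q.2, Finset.mem_filter.mpr ⟨hq2, hU2⟩, rfl⟩
    have hcard := (hmin V hV1 hV2).trans (Finset.card_le_card hV3)
    have h1 : (Td.image fun U : Submodule ℝ X => U.map (ρ h)).card = Td.card := by
      apply Finset.card_image_of_injective
      exact Submodule.map_injective_of_injective (rho_inj ρ h)
    have h2 : Td ∩ (Td.image fun U : Submodule ℝ X => U.map (ρ h)) = Td.image fun U : Submodule ℝ X => U.map (ρ h) := by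
      apply Finset.eq_of_subset_of_card_le Finset.inter_subset_right
      rw [h1, hT3]; exact hcard
    intro U hU
    have h3 : U.map (ρ h) ∈ Td.image fun U : Submodule ℝ X => U.map (ρ h) := Finset.mem_image_of_mem _ hU
    rw [← h2] at h3
    exact (Finset.mem_inter.mp h3).1
  -- a member of maximal dimension meets the orbit
  have hmeet : ∃ U ∈ Td, ∃ h : G, ρ h x ∈ U := by
    by_contra hcon
    push Not at hcon
    have hcov' : ∀ f : G, ∃ U ∈ T.filter (fun U : Submodule ℝ X => Module.finrank ℝ U < d), ρ f x ∈ U := by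
      intro f
      obtain ⟨U, hU, hU'⟩ := hT2 f
      refine ⟨U, Finset.mem_filter.mpr ⟨hU, ?_⟩, hU'⟩
      rcases lt_or_eq_of_le (hT1 U hU) with h | h
      · exact h
      · exact absurd hU' (hcon U (Finset.mem_filter.mpr ⟨hU, h⟩) f)
    have hd0 : 0 < d := by
      obtain ⟨U, hU, -⟩ := hcov' 1
      have := (Finset.mem_filter.mp hU).2
      omega
    have : P (d - 1) := ⟨_, fun U hU => by have := (Finset.mem_filter.mp hU).2; omega, hcov'⟩
    exact Nat.find_min hP (by omega) this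
  obtain ⟨U, hU, h, hh⟩ := hmeet
  have hUd : Module.finrank ℝ U = d := (Finset.mem_filter.mp hU).2
  refine ⟨U, by omega, ⟨h, hh⟩, ?_⟩
  let _ : MulAction G (Submodule ℝ X) := act ρ
  refine ⟨MulAction.stabilizer G U, ?_, fun f hf => hf⟩
  have horb : (MulAction.orbit G U).Finite := by
    apply Td.finite_toSet.subset
    rintro _ ⟨f, rfl⟩
    exact hperm f U hU
  constructor
  rw [MulAction.index_stabilizer]
  have : (MulAction.orbit G U).Nonempty := MulAction.nonempty_orbit U
  exact (Set.ncard_pos horb).mpr this |>.ne'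

theorem cover_aux (n : ℕ) : ∀ (G : Type) [Group G] (X : Type) [AddCommGroup X] [Module ℝ X]
    [FiniteDimensional ℝ X] (ρ : G →* (X →ₗ[ℝ] X)) (x : X) (ι : Type) [Finite ι]
    (W : ι → Submodule ℝ X), Module.finrank ℝ (Submodule.span ℝ (Set.range fun f : G => ρ f x)) = n →
    (∀ f : G, ∃ i, ρ f x ∈ W i) → ∃ i, ∃ G' : Subgroup G, G'.FiniteIndex ∧ ∀ f ∈ G', ρ f x ∈ W i := by
  induction n using Nat.strong_induction_on with
  | _ n ih =>
    intro G _ X _ _ _ ρ x ι _ W hn hcov
    classical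
    by_cases hsm : ∃ G₁ : Subgroup G, G₁.FiniteIndex ∧
        Module.finrank ℝ (Submodule.span ℝ (Set.range fun f : G₁ => ρ f x)) < n
    · obtain ⟨G₁, hG₁, hlt⟩ := hsm
      obtain ⟨i, G', hG', h⟩ := ih _ hlt G₁ X (ρ.comp G₁.subtype) x ι W rfl (fun f => hcov f)
      refine ⟨i, G'.map G₁.subtype, ?_, ?_⟩
      · constructor
        rw [Subgroup.index_map_subtype]
        exact mul_ne_zero hG'.index_ne_zero hG₁.index_ne_zero
      · rintro _ ⟨f, hf, rfl⟩
        exact h f hf
    · push Not at hsm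
      set V := Submodule.span ℝ (Set.range fun f : G => ρ f x) with hV
      by_contra hcon
      push Not at hcon
      have hnot : ∀ i, ¬ V ≤ W i := by
        intro i hi
        obtain ⟨f, -, hf⟩ := hcon i ⊤ inferInstance
        exact hf (hi (Submodule.subset_span ⟨f, rfl⟩))
      have := Fintype.ofFinite ι
      obtain ⟨U, hU, ⟨h, hh⟩, G', hG', hst⟩ := star ρ x n
        (Finset.univ.image fun i => V ⊓ W i) (by
          intro U hU
          obtain ⟨i, -, rfl⟩ := Finset.mem_image.mp hU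
          rw [← hn]
          apply Submodule.finrank_lt_finrank_of_lt
          exact lt_of_le_of_ne inf_le_left (fun h => hnot i (inf_eq_left.mp h))) (by
          intro f
          obtain ⟨i, hi⟩ := hcov f
          exact ⟨V ⊓ W i, Finset.mem_image_of_mem _ (Finset.mem_univ i),
            Submodule.subset_span ⟨f, rfl⟩, hi⟩)
      -- conjugate
      let G₂ : Subgroup G := G'.map (MulAut.conj h⁻¹).toMonoidHom
      have hG₂ : G₂.FiniteIndex := by
        constructor
        have h1 : G₂.index = G'.index := by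
          exact Subgroup.index_map_equiv G' (MulAut.conj h⁻¹)
        rw [h1]
        exact hG'.index_ne_zero
      have hle := hsm G₂ hG₂
      have hsub : Submodule.span ℝ (Set.range fun f : G₂ => ρ f x) ≤ U.map (ρ h⁻¹) := by
        rw [Submodule.span_le]
        rintro _ ⟨⟨_, ⟨f, hf, rfl⟩⟩, rfl⟩
        refine ⟨ρ f (ρ h x), ?_, ?_⟩
        · have : ρ f (ρ h x) ∈ U.map (ρ f) := ⟨_, hh, rfl⟩
          rwa [hst f hf] at this
        · change _ = ρ ((MulAut.conj h⁻¹) f) x
          rw [MulAut.conj_apply, inv_inv, map_mul, map_mul, Module.End.mul_apply,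
            Module.End.mul_apply]
      have h2 := Submodule.finrank_mono hsub
      rw [finrank_map_rho] at h2
      omega

end cover

theorem cover : S_cover := by
  intro G _ X _ _ _ ρ x ι _ W h
  exact cover_aux _ G X ρ x ι W rfl h

section general

variable {G : Type} [Group G] {W : Type} [AddCommGroup W] [Module ℝ W] [FiniteDimensional ℝ W]

/-- The action of `G` on pairs of endomorphisms. -/
noncomputable def rho2 (ρ : G →* (W →ₗ[ℝ] W)) :
    G →* (((W →ₗ[ℝ] W) × (W →ₗ[ℝ] W)) →ₗ[ℝ] ((W →ₗ[ℝ] W) × (W →ₗ[ℝ] W))) where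
  toFun g :=
    { toFun := fun q => (ρ g * q.1, q.2 * ρ g⁻¹)
      map_add' := fun a b => by
        ext1 <;> simp [mul_add, add_mul]
      map_smul' := fun r a => by
        ext1 <;> simp }
  map_one' := by
    apply LinearMap.ext
    intro q
    ext1 <;> simp
  map_mul' g h := by
    apply LinearMap.ext
    intro q
    ext1 <;> simp [mul_assoc]

theorem irr_contra (ρ : G →* (W →ₗ[ℝ] W)) (hρ : StrIrr ρ) (G' : Subgroup G) (hG' : G'.FiniteIndex)
    (α : W →ₗ[ℝ] ℝ) (v : W) (hα : α ≠ 0) (hv : v ≠ 0) (h : ∀ f ∈ G', α (ρ f v) = 0) : False := by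
  let U := Submodule.span ℝ ((fun f : G => ρ f v) '' G')
  have hinv : ∀ f ∈ G', ∀ u ∈ U, ρ f u ∈ U := by
    intro f hf u hu
    have : U ≤ U.comap (ρ f) := by
      rw [Submodule.span_le]
      rintro _ ⟨g, hg, rfl⟩
      apply Submodule.subset_span
      refine ⟨f * g, G'.mul_mem hf hg, ?_⟩
      simp
    exact this hu
  rcases hρ G' hG' U hinv with h0 | h0
  · have : v ∈ U := by
      apply Submodule.subset_span
      exact ⟨1, G'.one_mem, by simp⟩
    rw [h0] at this
    exact hv ((Submodule.mem_bot ℝ).mp this)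
  · apply hα
    have hle : U ≤ LinearMap.ker α := by
      rw [Submodule.span_le]
      rintro _ ⟨g, hg, rfl⟩
      exact h g hg
    rw [h0, top_le_iff] at hle
    exact LinearMap.ker_eq_top.mp hle

end general

theorem gen : S_gen := by
  intro G _ W _ _ _ ρ hρ ι κ _ _ α v β w hα hv hβ hw
  by_contra hcon
  push Not at hcon
  let A : ι → Submodule ℝ ((W →ₗ[ℝ] W) × (W →ₗ[ℝ] W)) := fun i =>
    LinearMap.ker ((α i).comp ((LinearMap.applyₗ (v i)).comp (LinearMap.fst ℝ _ _)))
  let B : κ → Submodule ℝ ((W →ₗ[ℝ] W) × (W →ₗ[ℝ] W)) := fun j =>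
    LinearMap.ker ((β j).comp ((LinearMap.applyₗ (w j)).comp (LinearMap.snd ℝ _ _)))
  have hA : ∀ i (q : (W →ₗ[ℝ] W) × (W →ₗ[ℝ] W)), q ∈ A i ↔ α i (q.1 (v i)) = 0 := fun i q => Iff.rfl
  have hB : ∀ j (q : (W →ₗ[ℝ] W) × (W →ₗ[ℝ] W)), q ∈ B j ↔ β j (q.2 (w j)) = 0 := fun j q => Iff.rfl
  have hx : ∀ f : G, rho2 ρ f (1, 1) = (ρ f, ρ f⁻¹) := by
    intro f
    change (ρ f * 1, 1 * ρ f⁻¹) = _
    rw [mul_one, one_mul]
  obtain ⟨i, G', hG', h⟩ := cover G _ (rho2 ρ) (1, 1) (ι ⊕ κ) (Sum.elim A B) (by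
    intro f
    rw [hx]
    by_cases h1 : ∀ i, α i (ρ f (v i)) ≠ 0
    · obtain ⟨j, hj⟩ := hcon f h1
      exact ⟨Sum.inr j, hj⟩
    · push Not at h1
      obtain ⟨i, hi⟩ := h1
      exact ⟨Sum.inl i, hi⟩)
  rcases i with i | j
  · apply irr_contra ρ hρ G' hG' (α i) (v i) (hα i) (hv i)
    intro f hf
    have := h f hf
    rw [hx] at this
    exact this
  · apply irr_contra ρ hρ G' hG' (β j) (w j) (hβ j) (hw j)
    intro f hf
    have := h f⁻¹ (G'.inv_mem hf)
    rw [hx, inv_inv] at this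
    exact this

end Pool.Agent.Helper74.K3.gen
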