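import Mathlib
import Pool.Agent.Helper77.K3.DefsI

/-!
# Eigenvalues of matrices with rank one limits
-/

set_option autoImplicit false

open Set Filter Topology Matrix

namespace Pool.Agent.Helper74.K3.pert

open Pool.Agent.Helper77.K3

theorem adj_rank_one (x φ : E) :
    adjugate ((φ ⬝ᵥ x) • (1 : M3) - vecMulVec x φ) = (φ ⬝ᵥ x) • vecMulVec x φ := by
  rw [adjugate_fin_three]
  ext i j
  fin_cases i <;> fin_cases j <;>
    simp [vecMulVec, dotProduct, Fin.sum_univ_three, Matrix.one_apply] <;> ring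

theorem det_rank_one (x φ : E) (t : ℝ) :
    (t • (1 : M3) - vecMulVec x φ).det = t ^ 2 * (t - φ ⬝ᵥ x) := by
  rw [det_fin_three]
  simp [vecMulVec, dotProduct, Fin.sum_univ_three, Matrix.one_apply]
  ring

theorem topeig (x φ : E) (hτ : φ ⬝ᵥ x ≠ 0) {Q : ℝ × E × E → Prop}
    (hQ : ∀ᶠ q in 𝓝 ((φ ⬝ᵥ x, x, φ) : ℝ × E × E), Q q) :
    ∀ᶠ B : M3 in 𝓝 (vecMulVec x φ), ∃ (t : ℝ) (v w : E), B *ᵥ v = t • v ∧ w ᵥ* B = t • w ∧
      Q (t, v, w) := by
  set τ := φ ⬝ᵥ x with hτd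
  set π := vecMulVec x φ with hπ
  have hc0 : Continuous (fun q : ℝ × M3 => q.1 • (1 : M3) - q.2) := by fun_prop
  have hcF : Continuous (fun q : ℝ × M3 => adjugate (q.1 • (1 : M3) - q.2)) := hc0.matrix_adjugate
  have hF0 : adjugate (τ • (1 : M3) - π) = τ • π := adj_rank_one x φ
  have h1 : Continuous (fun q : ℝ × M3 => (τ ^ 2)⁻¹ • (adjugate (q.1 • (1 : M3) - q.2) *ᵥ x)) := by
    have h : Continuous (fun q : ℝ × M3 => adjugate (q.1 • (1 : M3) - q.2) *ᵥ x) :=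
      hcF.matrix_mulVec continuous_const
    fun_prop
  have h2 : Continuous (fun q : ℝ × M3 => (τ ^ 2)⁻¹ • (φ ᵥ* adjugate (q.1 • (1 : M3) - q.2))) := by
    have h : Continuous (fun q : ℝ × M3 => φ ᵥ* adjugate (q.1 • (1 : M3) - q.2)) :=
      continuous_const.matrix_vecMul hcF
    fun_prop
  have e1 : (τ ^ 2)⁻¹ • (adjugate (τ • (1 : M3) - π) *ᵥ x) = x := by
    rw [hF0, smul_mulVec, hπ, vecMulVec_mulVec, ← hτd]
    rw [op_smul_eq_smul, smul_smul, smul_smul]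
    rw [show (τ ^ 2)⁻¹ * τ * τ = 1 by field_simp, one_smul]
  have e2 : (τ ^ 2)⁻¹ • (φ ᵥ* adjugate (τ • (1 : M3) - π)) = φ := by
    rw [hF0, vecMul_smul, hπ, vecMul_vecMulVec, ← hτd]
    rw [smul_smul, smul_smul]
    rw [show (τ ^ 2)⁻¹ * τ * τ = 1 by field_simp, one_smul]
  have hev : ∀ᶠ q : ℝ × M3 in 𝓝 (τ, π),
      Q (q.1, (τ ^ 2)⁻¹ • (adjugate (q.1 • (1 : M3) - q.2) *ᵥ x),
        (τ ^ 2)⁻¹ • (φ ᵥ* adjugate (q.1 • (1 : M3) - q.2))) := by
    have h := (continuous_fst.prodMk (h1.prodMk h2)).tendsto (τ, π)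
    have h' : Tendsto (fun q : ℝ × M3 =>
        ((q.1, (τ ^ 2)⁻¹ • (adjugate (q.1 • (1 : M3) - q.2) *ᵥ x),
        (τ ^ 2)⁻¹ • (φ ᵥ* adjugate (q.1 • (1 : M3) - q.2))) : ℝ × E × E)) (𝓝 (τ, π))
        (𝓝 (τ, x, φ)) := by
      have h3 := h
      simp only [e1, e2] at h3
      exact h3
    exact h'.eventually hQ
  rw [nhds_prod_eq, Filter.eventually_prod_iff] at hev
  obtain ⟨pa, hpa, pb, hpb, hab⟩ := hev
  obtain ⟨δ₀, hδ₀, hball⟩ := Metric.eventually_nhds_iff.mp hpa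
  have hmin : 0 < min δ₀ |τ| := lt_min hδ₀ (abs_pos.mpr hτ)
  obtain ⟨δ, hδ, hδ1, hδ2⟩ : ∃ δ : ℝ, 0 < δ ∧ δ < δ₀ ∧ δ < |τ| :=
    ⟨min δ₀ |τ| / 2, by linarith, by linarith [min_le_left δ₀ |τ|],
      by linarith [min_le_right δ₀ |τ|]⟩
  have hsq1 : 0 < (τ + δ) ^ 2 := by
    apply sq_pos_of_ne_zero
    intro h
    have : |τ| = δ := by
      rw [show τ = -δ by linarith, abs_neg, abs_of_pos hδ]
    linarith
  have hsq2 : 0 < (τ - δ) ^ 2 := by
    apply sq_pos_of_ne_zero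
    intro h
    have : |τ| = δ := by
      rw [show τ = δ by linarith, abs_of_pos hδ]
    linarith
  have hp : ∀ᶠ B : M3 in 𝓝 π, 0 < ((τ + δ) • (1 : M3) - B).det := by
    have h : Continuous (fun B : M3 => ((τ + δ) • (1 : M3) - B).det) :=
      (continuous_const.sub continuous_id).matrix_det
    apply (h.tendsto π).eventually_const_lt
    rw [hπ, det_rank_one, ← hτd]
    have : 0 < (τ + δ) ^ 2 * δ := mul_pos hsq1 hδ
    linarith [show (τ + δ) ^ 2 * (τ + δ - τ) = (τ + δ) ^ 2 * δ by ring]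
  have hm : ∀ᶠ B : M3 in 𝓝 π, ((τ - δ) • (1 : M3) - B).det < 0 := by
    have h : Continuous (fun B : M3 => ((τ - δ) • (1 : M3) - B).det) :=
      (continuous_const.sub continuous_id).matrix_det
    apply (h.tendsto π).eventually_lt_const
    rw [hπ, det_rank_one, ← hτd]
    have : 0 < (τ - δ) ^ 2 * δ := mul_pos hsq2 hδ
    linarith [show (τ - δ) ^ 2 * (τ - δ - τ) = -((τ - δ) ^ 2 * δ) by ring]
  filter_upwards [hp, hm, hpb] with B hB1 hB2 hB3
  have hcont : ContinuousOn (fun t : ℝ => (t • (1 : M3) - B).det) (Icc (τ - δ) (τ + δ)) := by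
    have h : Continuous (fun t : ℝ => (t • (1 : M3) - B).det) := by
      apply Continuous.matrix_det
      fun_prop
    exact h.continuousOn
  obtain ⟨t, ht, ht0⟩ := intermediate_value_Icc (by linarith : τ - δ ≤ τ + δ) hcont
    (show (0 : ℝ) ∈ Icc _ _ from ⟨hB2.le, hB1.le⟩)
  have htd : dist t τ < δ₀ := by
    rw [Real.dist_eq, abs_lt]
    constructor <;> linarith [ht.1, ht.2]
  have a1 := hab (hball htd) hB3
  have hz : (t • (1 : M3) - B).det = 0 := ht0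
  have hBF : B * adjugate (t • (1 : M3) - B) = t • adjugate (t • (1 : M3) - B) := by
    have := mul_adjugate (t • (1 : M3) - B)
    rw [hz, zero_smul, sub_mul, smul_mul_assoc, one_mul, sub_eq_zero] at this
    exact this.symm
  have hFB : adjugate (t • (1 : M3) - B) * B = t • adjugate (t • (1 : M3) - B) := by
    have := adjugate_mul (t • (1 : M3) - B)
    rw [hz, zero_smul, mul_sub, mul_smul_comm, mul_one, sub_eq_zero] at this
    exact this.symm
  refine ⟨t, _, _, ?_, ?_, a1⟩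
  · rw [mulVec_smul, mulVec_mulVec, hBF, smul_mulVec, smul_comm]
  · rw [smul_vecMul, vecMul_vecMul, hFB, vecMul_smul, smul_comm]

/-- The other eigenvalues are small. -/
theorem bound {B : M3} {v w x : E} {μ η : ℝ} (hBv : B *ᵥ v = μ • v) (hwv : w ⬝ᵥ v = 0)
    (hv : v ≠ 0) (hη : ∀ i j, |B i j - x i * w j| ≤ η) : |μ| ≤ 3 * η := by
  obtain ⟨i, hi⟩ := Finite.exists_max (fun i => |v i|)
  have hvi : 0 < |v i| := by
    rw [abs_pos]
    intro h0
    apply hv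
    funext j
    have := hi j
    rw [h0, abs_zero] at this
    exact abs_eq_zero.mp (le_antisymm this (abs_nonneg _))
  have h1 : μ * v i = ∑ j, (B i j - x i * w j) * v j := by
    have h2 := congrFun hBv i
    simp only [mulVec, dotProduct, Pi.smul_apply, smul_eq_mul] at h2
    rw [← h2]
    have h3 : ∑ j, (B i j - x i * w j) * v j = ∑ j, B i j * v j - x i * (w ⬝ᵥ v) := by
      simp only [dotProduct, Fin.sum_univ_three]
      ring
    rw [h3, hwv, mul_zero, sub_zero]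
  have h4 : |μ| * |v i| ≤ 3 * η * |v i| := by
    rw [← abs_mul, h1]
    calc |∑ j, (B i j - x i * w j) * v j| ≤ ∑ j, |(B i j - x i * w j) * v j| :=
          Finset.abs_sum_le_sum_abs _ _
      _ ≤ ∑ _j : Fin 3, η * |v i| := by
          apply Finset.sum_le_sum
          intro j _
          rw [abs_mul]
          exact mul_le_mul (hη i j) (hi j) (abs_nonneg _) ((abs_nonneg _).trans (hη i j))
      _ = 3 * η * |v i| := by simp [Fin.sum_univ_three]; ring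
  exact le_of_mul_le_mul_right h4 hvi

theorem cross_adj1 (A : M3) (a b : E) :
    adjugate A *ᵥ (a ⨯₃ b) = (a ᵥ* A) ⨯₃ (b ᵥ* A) := by
  rw [adjugate_fin_three]
  ext i
  fin_cases i <;>
    simp [cross_apply, mulVec, vecMul, dotProduct, Fin.sum_univ_three] <;> ring

theorem cross_adj2 (A : M3) (a b : E) :
    (a ⨯₃ b) ᵥ* adjugate A = (A *ᵥ a) ⨯₃ (A *ᵥ b) := by
  rw [adjugate_fin_three]
  ext i
  fin_cases i <;>
    simp [cross_apply, mulVec, vecMul, dotProduct, Fin.sum_univ_three] <;> ring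

/-- The data at one of the two ends. -/
theorem oneside (x φ : E) (hτ : φ ⬝ᵥ x ≠ 0) {ε : ℝ} (hε : 0 < ε) :
    ∀ᶠ B : M3 in 𝓝 (vecMulVec x φ), ∃ (t : ℝ) (v w : E), B *ᵥ v = t • v ∧ w ᵥ* B = t • w ∧
      ‖v - x‖ < ε ∧ ‖w - φ‖ < ε ∧ w ⬝ᵥ v ≠ 0 ∧ |φ ⬝ᵥ x| / 2 < |t| ∧
      ∀ (u : E) (μ : ℝ), B *ᵥ u = μ • u → w ⬝ᵥ u = 0 → u ≠ 0 → |μ| < |t| := by
  have hη : 0 < |φ ⬝ᵥ x| / 16 := by have := abs_pos.mpr hτ; linarith
  have hQ : ∀ᶠ q in 𝓝 ((φ ⬝ᵥ x, x, φ) : ℝ × E × E), ‖q.2.1 - x‖ < ε ∧ ‖q.2.2 - φ‖ < ε ∧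
      q.2.2 ⬝ᵥ q.2.1 ≠ 0 ∧ |φ ⬝ᵥ x| / 2 < |q.1| ∧
      ∀ i j, |x i * φ j - x i * q.2.2 j| < |φ ⬝ᵥ x| / 16 := by
    refine Filter.Eventually.and ?_ (Filter.Eventually.and ?_ (Filter.Eventually.and ?_
      (Filter.Eventually.and ?_ ?_)))
    · have h : Continuous (fun q : ℝ × E × E => ‖q.2.1 - x‖) := by fun_prop
      apply (h.tendsto _).eventually_lt_const
      simpa using hε
    · have h : Continuous (fun q : ℝ × E × E => ‖q.2.2 - φ‖) := by fun_prop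
      apply (h.tendsto _).eventually_lt_const
      simpa using hε
    · have h : Continuous (fun q : ℝ × E × E => q.2.2 ⬝ᵥ q.2.1) := by
        simp only [dotProduct]
        fun_prop
      exact (h.tendsto _).eventually_ne hτ
    · have h : Continuous (fun q : ℝ × E × E => |q.1|) := by fun_prop
      apply (h.tendsto _).eventually_const_lt
      have := abs_pos.mpr hτ
      simp only
      linarith
    · rw [eventually_all]
      intro i
      rw [eventually_all]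
      intro j
      have h : Continuous (fun q : ℝ × E × E => |x i * φ j - x i * q.2.2 j|) := by fun_prop
      apply (h.tendsto _).eventually_lt_const
      simpa using hη
  have hB : ∀ᶠ B : M3 in 𝓝 (vecMulVec x φ), ∀ i j, |B i j - x i * φ j| < |φ ⬝ᵥ x| / 16 := by
    rw [eventually_all]
    intro i
    rw [eventually_all]
    intro j
    have h : Continuous (fun B : M3 => |B i j - x i * φ j|) := by
      have h' : Continuous (fun B : M3 => B i j) := continuous_id.matrix_elem i j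
      fun_prop
    apply (h.tendsto _).eventually_lt_const
    simpa [vecMulVec] using hη
  filter_upwards [topeig x φ hτ hQ, hB] with B hB1 hB2
  obtain ⟨t, v, w, e1, e2, q1, q2, q3, q4, q5⟩ := hB1
  refine ⟨t, v, w, e1, e2, q1, q2, q3, q4, ?_⟩
  intro u μ hu hwu hu0
  have hb : |μ| ≤ 3 * (|φ ⬝ᵥ x| / 8) := by
    apply bound hu hwu hu0 (x := x)
    intro i j
    have h1 := hB2 i j
    have h2 := q5 i j
    have h3 : |B i j - x i * w j| ≤ |B i j - x i * φ j| + |x i * φ j - x i * w j| :=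
      abs_sub_le _ _ _
    linarith
  have := abs_pos.mpr hτ
  linarith

theorem pert : S_pert := by
  intro A c c' x φ y ψ hc hc' hA hA' hφ hψ ε hε
  have h1 := hA.eventually (oneside x φ hφ hε)
  have h2 := hA'.eventually (oneside y ψ hψ hε)
  have hτ := abs_pos.mpr hφ
  have hσ := abs_pos.mpr hψ
  filter_upwards [h1, h2, hc.eventually_gt_atTop (2 / |φ ⬝ᵥ x|), hc'.eventually_gt_atTop (2 / |ψ ⬝ᵥ y|)]
    with n hn1 hn2 hcn hcn'
  obtain ⟨t, v₀, w₀, a1, a2, a3, a4, a5, a6, a7⟩ := hn1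
  obtain ⟨s, v₂, w₂, b1, b2, b3, b4, b5, b6, b7⟩ := hn2
  have hcpos : 0 < c n := lt_trans (by positivity) hcn
  have hcpos' : 0 < c' n := lt_trans (by positivity) hcn'
  set B : M3 := (A n : M3) with hB
  have hinv : ((A n)⁻¹ : SL3).1 = adjugate B := Matrix.SpecialLinearGroup.coe_inv (A n)
  rw [hinv] at b1 b2 b7
  have hdet : B.det = 1 := (A n).2
  have hBa : B * adjugate B = 1 := by rw [mul_adjugate, hdet, one_smul]
  have haB : adjugate B * B = 1 := by rw [adjugate_mul, hdet, one_smul]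
  -- eigenvalues
  have ht0 : t ≠ 0 := by
    intro h
    rw [h, abs_zero] at a6
    linarith
  have hs0 : s ≠ 0 := by
    intro h
    rw [h, abs_zero] at b6
    linarith
  have e0 : B *ᵥ v₀ = (c n * t) • v₀ := by
    rw [smul_mulVec] at a1
    have := congrArg (fun z => c n • z) a1
    simp only [smul_smul] at this
    rwa [mul_inv_cancel₀ hcpos.ne', one_smul] at this
  have f0 : w₀ ᵥ* B = (c n * t) • w₀ := by
    rw [vecMul_smul] at a2
    have := congrArg (fun z => c n • z) a2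
    simp only [smul_smul] at this
    rwa [mul_inv_cancel₀ hcpos.ne', one_smul] at this
  have e2' : adjugate B *ᵥ v₂ = (c' n * s) • v₂ := by
    rw [smul_mulVec] at b1
    have := congrArg (fun z => c' n • z) b1
    simp only [smul_smul] at this
    rwa [mul_inv_cancel₀ hcpos'.ne', one_smul] at this
  have f2' : w₂ ᵥ* adjugate B = (c' n * s) • w₂ := by
    rw [vecMul_smul] at b2
    have := congrArg (fun z => c' n • z) b2
    simp only [smul_smul] at this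
    rwa [mul_inv_cancel₀ hcpos'.ne', one_smul] at this
  set ν0 := c n * t with hν0
  set κ := c' n * s with hκ
  have hκ0 : κ ≠ 0 := mul_ne_zero hcpos'.ne' hs0
  have hν00 : ν0 ≠ 0 := mul_ne_zero hcpos.ne' ht0
  have e2 : B *ᵥ v₂ = κ⁻¹ • v₂ := by
    have := congrArg (fun z => κ⁻¹ • (B *ᵥ z)) e2'
    simp only [mulVec_mulVec, hBa, one_mulVec, mulVec_smul, smul_smul] at this
    rw [inv_mul_cancel₀ hκ0, one_smul] at this
    exact this.symm
  have f2 : w₂ ᵥ* B = κ⁻¹ • w₂ := by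
    have := congrArg (fun z => κ⁻¹ • (z ᵥ* B)) f2'
    simp only [vecMul_vecMul, haB, vecMul_one, smul_vecMul, smul_smul] at this
    rw [inv_mul_cancel₀ hκ0, one_smul] at this
    exact this.symm
  have hν0big : 1 < |ν0| := by
    rw [hν0, abs_mul, abs_of_pos hcpos]
    have h : 2 / |φ ⬝ᵥ x| * (|φ ⬝ᵥ x| / 2) = 1 := by field_simp
    calc (1 : ℝ) = 2 / |φ ⬝ᵥ x| * (|φ ⬝ᵥ x| / 2) := h.symm
      _ < c n * |t| := mul_lt_mul'' hcn a6 (by positivity) (by positivity)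
  have hκbig : 1 < |κ| := by
    rw [hκ, abs_mul, abs_of_pos hcpos']
    have h : 2 / |ψ ⬝ᵥ y| * (|ψ ⬝ᵥ y| / 2) = 1 := by field_simp
    calc (1 : ℝ) = 2 / |ψ ⬝ᵥ y| * (|ψ ⬝ᵥ y| / 2) := h.symm
      _ < c' n * |s| := mul_lt_mul'' hcn' b6 (by positivity) (by positivity)
  have hne : ν0 ≠ κ⁻¹ := by
    intro h
    have h3 : |ν0| * |κ| = 1 := by
      rw [← abs_mul, h, inv_mul_cancel₀ hκ0, abs_one]
    nlinarith
  have o1 : w₀ ⬝ᵥ v₂ = 0 := by
    have h3 : w₀ ⬝ᵥ (B *ᵥ v₂) = (w₀ ᵥ* B) ⬝ᵥ v₂ := dotProduct_mulVec _ _ _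
    rw [e2, f0, dotProduct_smul, smul_dotProduct, smul_eq_mul, smul_eq_mul] at h3
    have h4 : (κ⁻¹ - ν0) * (w₀ ⬝ᵥ v₂) = 0 := by linear_combination h3
    rcases mul_eq_zero.mp h4 with h5 | h5
    · exact absurd (sub_eq_zero.mp h5).symm hne
    · exact h5
  have o2 : w₂ ⬝ᵥ v₀ = 0 := by
    have h3 : w₂ ⬝ᵥ (B *ᵥ v₀) = (w₂ ᵥ* B) ⬝ᵥ v₀ := dotProduct_mulVec _ _ _
    rw [e0, f2, dotProduct_smul, smul_dotProduct, smul_eq_mul, smul_eq_mul] at h3
    have h4 : (κ⁻¹ - ν0) * (w₂ ⬝ᵥ v₀) = 0 := by linear_combination -h3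
    rcases mul_eq_zero.mp h4 with h5 | h5
    · exact absurd (sub_eq_zero.mp h5).symm hne
    · exact h5
  -- the middle eigenvector
  set v₁ : E := w₀ ⨯₃ w₂ with hv₁
  set w₁ : E := v₀ ⨯₃ v₂ with hw₁
  have hwv : w₁ ⬝ᵥ v₁ ≠ 0 := by
    have : w₁ ⬝ᵥ v₁ = (w₀ ⬝ᵥ v₀) * (w₂ ⬝ᵥ v₂) := by
      rw [hw₁, hv₁, cross_dot_cross, dotProduct_comm v₀ w₀, dotProduct_comm v₂ w₂,
        dotProduct_comm v₀ w₂, dotProduct_comm v₂ w₀, o1, o2]
      ring
    rw [this]
    exact mul_ne_zero a5 b5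
  have hv₁0 : v₁ ≠ 0 := by
    intro h
    rw [h, dotProduct_zero] at hwv
    exact hwv rfl
  have g1 : adjugate B *ᵥ v₁ = (ν0 * κ⁻¹) • v₁ := by
    rw [hv₁, cross_adj1, f0, f2]
    simp only [map_smul, LinearMap.smul_apply, smul_smul]
    rw [mul_comm]
  have g2 : w₁ ᵥ* adjugate B = (ν0 * κ⁻¹) • w₁ := by
    rw [hw₁, cross_adj2, e0, e2]
    simp only [map_smul, LinearMap.smul_apply, smul_smul]
    rw [mul_comm]
  have hq0 : ν0 * κ⁻¹ ≠ 0 := mul_ne_zero hν00 (inv_ne_zero hκ0)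
  have g3 : B *ᵥ v₁ = (ν0 * κ⁻¹)⁻¹ • v₁ := by
    have := congrArg (fun z => (ν0 * κ⁻¹)⁻¹ • (B *ᵥ z)) g1
    simp only [mulVec_mulVec, hBa, one_mulVec, mulVec_smul, smul_smul] at this
    rw [inv_mul_cancel₀ hq0, one_smul] at this
    exact this.symm
  have g4 : w₁ ᵥ* B = (ν0 * κ⁻¹)⁻¹ • w₁ := by
    have := congrArg (fun z => (ν0 * κ⁻¹)⁻¹ • (z ᵥ* B)) g2
    simp only [vecMul_vecMul, haB, vecMul_one, smul_vecMul, smul_smul] at this
    rw [inv_mul_cancel₀ hq0, one_smul] at this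
    exact this.symm
  set ν1 := (ν0 * κ⁻¹)⁻¹ with hν1
  have z1 : w₀ ⬝ᵥ v₁ = 0 := dot_self_cross _ _
  have z2 : w₂ ⬝ᵥ v₁ = 0 := dot_cross_self _ _
  have z3 : w₁ ⬝ᵥ v₀ = 0 := by rw [dotProduct_comm]; exact dot_self_cross _ _
  have z4 : w₁ ⬝ᵥ v₂ = 0 := by rw [dotProduct_comm]; exact dot_cross_self _ _
  have i1 : |ν1| < |ν0| := by
    have h3 : ((c n)⁻¹ • B) *ᵥ v₁ = ((c n)⁻¹ * ν1) • v₁ := by
      rw [smul_mulVec, g3, smul_smul]
    have h4 := a7 v₁ _ h3 z1 hv₁0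
    rw [abs_mul, abs_of_pos (inv_pos.mpr hcpos)] at h4
    rw [hν0, abs_mul, abs_of_pos hcpos]
    calc |ν1| = c n * ((c n)⁻¹ * |ν1|) := by field_simp
      _ < c n * |t| := mul_lt_mul_of_pos_left h4 hcpos
  have i2 : |κ⁻¹| < |ν1| := by
    have h3 : ((c' n)⁻¹ • adjugate B) *ᵥ v₁ = ((c' n)⁻¹ * (ν0 * κ⁻¹)) • v₁ := by
      rw [smul_mulVec, g1, smul_smul]
    have h4 := b7 v₁ _ h3 z2 hv₁0
    rw [abs_mul, abs_of_pos (inv_pos.mpr hcpos')] at h4
    have h5 : |ν0 * κ⁻¹| < |κ| := by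
      rw [hκ, abs_mul (c' n) s, abs_of_pos hcpos']
      calc |ν0 * (c' n * s)⁻¹| = c' n * ((c' n)⁻¹ * |ν0 * (c' n * s)⁻¹|) := by field_simp
        _ < c' n * |s| := mul_lt_mul_of_pos_left h4 hcpos'
    rw [hν1, abs_inv, abs_inv]
    exact inv_strictAnti₀ (abs_pos.mpr hq0) h5
  refine ⟨![v₀, v₁, v₂], ![w₀, w₁, w₂], ![ν0, ν1, κ⁻¹], ?_, ?_, ?_, ?_, ?_, ?_, ?_, a3, b3, a4, b4⟩
  · intro i; fin_cases i
    · exact e0
    · exact g3
    · exact e2
  · intro i; fin_cases i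
    · exact f0
    · exact g4
    · exact f2
  · exact i2
  · exact i1
  · exact abs_pos.mpr (inv_ne_zero hκ0)
  · intro i j hij
    fin_cases i <;> fin_cases j
    · exact absurd rfl hij
    · exact z1
    · exact o1
    · exact z3
    · exact absurd rfl hij
    · exact z4
    · exact o2
    · exact z2
    · exact absurd rfl hij
  · intro i; fin_cases i
    · exact a5
    · exact hwv
    · exact b5

end Pool.Agent.Helper74.K3.pert
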